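import Pool.Agent.Helper12.E4.Basic

/-! # Out-degree in the lexicographic order on words (module E4-1 of MP_e4b2b0_co) -/

namespace E4

open Finset

/-- words which agree with `w` above `h` and are dominated at `h`: as a pi-set -/
def c1_pi {D : ℕ} (w : Wd D) (h : Fin D) : Finset (Wd D) :=
  Fintype.piFinset fun i => if h < i then {w i} else if i = h then univ.filter (fun c' => M (w h) c')
    else univ

theorem c1_mem {D : ℕ} (w w' : Wd D) (h : Fin D) :
    w' ∈ c1_pi w h ↔ M (w h) (w' h) ∧ ∀ i', h < i' → w h = w h ∧ w i' = w' i' := by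
  unfold c1_pi
  rw [Fintype.mem_piFinset]
  constructor
  · intro H
    refine ⟨?_, fun i' hi' => ⟨rfl, ?_⟩⟩
    · have := H h
      rw [if_neg (lt_irrefl _), if_pos rfl, mem_filter] at this
      exact this.2
    · have := H i'
      rw [if_pos hi', mem_singleton] at this
      exact this.symm
  · rintro ⟨H1, H2⟩ i
    by_cases hi : h < i
    · rw [if_pos hi, mem_singleton, (H2 i hi).2]
    · rw [if_neg hi]
      by_cases hi' : i = h
      · subst hi'
        rw [if_pos rfl, mem_filter]
        exact ⟨mem_univ _, H1⟩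
      · rw [if_neg hi']; exact mem_univ _

theorem c1_card {D : ℕ} (w : Wd D) (h : Fin D) :
    (c1_pi w h).card = (univ.filter (fun c' => M (w h) c')).card * 30 ^ h.val := by
  unfold c1_pi
  rw [Fintype.card_piFinset]
  have h1 : ∀ i : Fin D, (if h < i then ({w i} : Finset (Fin 30)) else if i = h then
      univ.filter (fun c' => M (w h) c') else univ).card =
      (if i = h then (univ.filter (fun c' => M (w h) c')).card else 1) *
      (if i < h then 30 else 1) := by
    intro i
    rcases lt_trichotomy h i with hi | hi | hi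
    · rw [if_pos hi, if_neg hi.ne', if_neg hi.le.not_gt]; simp
    · subst hi; simp
    · rw [if_neg hi.le.not_gt, if_neg hi.ne, if_neg hi.ne, if_pos hi]; simp
  rw [Finset.prod_congr rfl fun i _ => h1 i, Finset.prod_mul_distrib]
  congr 1
  · simp
  · rw [Finset.prod_ite, Finset.prod_const, Finset.prod_const_one, mul_one]
    congr 1
    have : (univ.filter (fun i : Fin D => i < h)) = Finset.Iio h := by
      ext i; simp
    rw [this, Fin.card_Iio]

/-- C1: the out-degree of a word -/
theorem lexW_count {D : ℕ} (w : Wd D) :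
    Nat.card {w' : Wd D // lexW w w'} =
      ∑ h : Fin D, (Finset.univ.filter (fun c' => M (w h) c')).card * 30 ^ h.val := by
  classical
  have hset : (univ.filter (fun w' : Wd D => lexW w w')) = univ.biUnion (c1_pi w) := by
    ext w'
    rw [mem_filter, mem_biUnion]
    constructor
    · rintro ⟨-, i, hi, hi'⟩
      exact ⟨i, mem_univ _, (c1_mem w w' i).2 ⟨hi, fun i' h => ⟨rfl, hi' i' h⟩⟩⟩
    · rintro ⟨i, -, hi⟩
      obtain ⟨h1, h2⟩ := (c1_mem w w' i).1 hi
      exact ⟨mem_univ _, i, h1, fun i' h => (h2 i' h).2⟩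
  rw [Nat.card_eq_fintype_card, Fintype.card_subtype, hset, Finset.card_biUnion]
  · exact Finset.sum_congr rfl fun h _ => c1_card w h
  · intro h _ h' _ hne
    rw [Function.onFun, Finset.disjoint_left]
    intro w' hw hw'
    obtain ⟨a1, a2⟩ := (c1_mem w w' h).1 hw
    obtain ⟨b1, b2⟩ := (c1_mem w w' h').1 hw'
    rcases lt_or_gt_of_ne hne with hlt | hlt
    · rw [← (a2 h' hlt).2] at b1
      exact M_irrefl _ b1
    · rw [← (b2 h hlt).2] at a1
      exact M_irrefl _ a1

end E4
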