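import Pool.Agent.Helper12.E4.Basic

/-! # Counting words and units (module E4-2 of MP_e4b2b0_co) -/

namespace E4

open Finset

/-- C2: the letter at height `h` -/
theorem word_count {D : ℕ} (h : Fin D) (S : Finset (Fin 30)) :
    Nat.card {w : Wd D // w h ∈ S} * 30 = S.card * 30 ^ D := by
  classical
  have hset : (univ.filter (fun w : Wd D => w h ∈ S)) =
      Fintype.piFinset (fun i : Fin D => if i = h then S else univ) := by
    ext w
    rw [mem_filter, Fintype.mem_piFinset]
    constructor
    · rintro ⟨-, hw⟩ i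
      by_cases hi : i = h
      · subst hi; rw [if_pos rfl]; exact hw
      · rw [if_neg hi]; exact mem_univ _
    · intro H
      have := H h
      rw [if_pos rfl] at this
      exact ⟨mem_univ _, this⟩
  rw [Nat.card_eq_fintype_card, Fintype.card_subtype, hset, Fintype.card_piFinset]
  have h1 : ∏ i : Fin D, (if i = h then S else univ).card =
      ∏ i : Fin D, ((if i = h then S.card else 1) * (if i = h then 1 else 30)) := by
    refine Finset.prod_congr rfl fun i _ => ?_
    by_cases hi : i = h <;> simp [hi]
  have h2 : (∏ i : Fin D, (if i = h then 1 else 30)) * 30 = 30 ^ D := by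
    have : (30 : ℕ) ^ D = ∏ i : Fin D, 30 := by simp
    rw [this, ← Finset.prod_erase_mul univ (fun _ : Fin D => 30) (mem_univ h),
      ← Finset.prod_erase_mul univ (fun i : Fin D => if i = h then 1 else 30) (mem_univ h)]
    rw [if_pos rfl, mul_one]
    congr 1
    refine Finset.prod_congr rfl fun i hi => ?_
    rw [if_neg (Finset.ne_of_mem_erase hi)]
  rw [h1, Finset.prod_mul_distrib, mul_assoc, h2]
  congr 1
  simp

/-- the number of units which are dominated, from either side -/
theorem c2_units (t a : ℕ) (c : Fin 30) :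
    (univ.filter (fun u : Fin 27 => if a < t then u.val < tau c else 26 - u.val < tau c)).card =
      tau c := by
  by_cases ha : a < t
  · simp only [ha, if_true]
    revert c
    decide
  · simp only [ha, if_false]
    revert c
    decide

theorem relZ_count {D : ℕ} (t a μ : ℕ) (w : Wd D) :
    Nat.card {z : ZV D μ // relZ t a w z.1 z.2.1} = (∑ h : Fin D, tau (w h) * 30 ^ h.val) * μ := by
  classical
  let e : {z : ZV D μ // relZ t a w z.1 z.2.1} ≃
      (Σ h : Fin D, {u : Fin 27 // relZ t a w h u} × Fin (30 ^ h.val * μ)) :=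
    { toFun := fun z => ⟨z.1.1, ⟨⟨z.1.2.1, z.2⟩, z.1.2.2⟩⟩
      invFun := fun y => ⟨⟨y.1, (y.2.1.1, y.2.2)⟩, y.2.1.2⟩
      left_inv := fun z => rfl
      right_inv := fun y => rfl }
  rw [Nat.card_congr e, Nat.card_eq_fintype_card, Fintype.card_sigma, Finset.sum_mul]
  refine Finset.sum_congr rfl fun h _ => ?_
  rw [Fintype.card_prod, Fintype.card_fin, Fintype.card_subtype]
  have : (univ.filter (fun u : Fin 27 => relZ t a w h u)).card = tau (w h) := by
    rw [← c2_units t a (w h)]
    refine congrArg Finset.card (Finset.filter_congr fun u _ => ?_)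
    rw [relZ]
  rw [this]
  ring

theorem c2_iff {D : ℕ} (t a : ℕ) (w : Wd D) (h : Fin D) (u : Fin 27) :
    ¬ relZ t a w h u ↔ w h ∈ (if a < t then univ.filter (fun c : Fin 30 => ¬ u.val < tau c)
      else univ.filter (fun c : Fin 30 => ¬ 26 - u.val < tau c)) := by
  unfold relZ
  by_cases ha : a < t
  · rw [if_pos ha, if_pos ha, mem_filter]; simp
  · rw [if_neg ha, if_neg ha, mem_filter]; simp

theorem relZ_bal {D : ℕ} (t μ : ℕ) (h : Fin D) (u : Fin 27) :
    Nat.card {x : KV D t μ // ¬ relZ t x.1 x.2.1 h u} = t * 30 ^ D * μ := by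
  classical
  -- the two kinds of clusters
  set S1 : Finset (Fin 30) := univ.filter (fun c => ¬ u.val < tau c) with hS1
  set S2 : Finset (Fin 30) := univ.filter (fun c => ¬ 26 - u.val < tau c) with hS2
  have hbal : S1.card + S2.card = 30 := by
    have h1 := tau_bal u
    have h2 := Finset.card_filter_add_card_filter_not (s := (univ : Finset (Fin 30)))
      (fun c : Fin 30 => u.val < tau c)
    have h3 := Finset.card_filter_add_card_filter_not (s := (univ : Finset (Fin 30)))
      (fun c : Fin 30 => 26 - u.val < tau c)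
    rw [Finset.card_univ, Fintype.card_fin] at h2 h3
    rw [hS1, hS2]
    omega
  let e : {x : KV D t μ // ¬ relZ t x.1 x.2.1 h u} ≃
      (Σ a : Fin (2 * t), {w : Wd D // w h ∈ (if a.val < t then S1 else S2)} × Fin μ) :=
    { toFun := fun x => ⟨x.1.1, ⟨⟨x.1.2.1, (c2_iff t x.1.1 x.1.2.1 h u).1 x.2⟩, x.1.2.2⟩⟩
      invFun := fun y => ⟨(y.1, y.2.1.1, y.2.2), (c2_iff t y.1 y.2.1.1 h u).2 y.2.1.2⟩
      left_inv := fun x => rfl
      right_inv := fun y => rfl }
  have h30 : 0 < 30 := by norm_num
  refine Nat.eq_of_mul_eq_mul_right h30 ?_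
  rw [Nat.card_congr e, Nat.card_eq_fintype_card, Fintype.card_sigma, Finset.sum_mul]
  have h1 : ∀ a : Fin (2 * t), Fintype.card ({w : Wd D // w h ∈ (if a.val < t then S1 else S2)} ×
      Fin μ) * 30 = (if a.val < t then S1.card else S2.card) * 30 ^ D * μ := by
    intro a
    rw [Fintype.card_prod, Fintype.card_fin, ← Nat.card_eq_fintype_card, mul_right_comm,
      word_count]
    by_cases ha : a.val < t <;> simp [ha]
  rw [Finset.sum_congr rfl fun a _ => h1 a, ← Finset.sum_mul, ← Finset.sum_mul]
  have h2 : ∑ a : Fin (2 * t), (if a.val < t then S1.card else S2.card) = t * 30 := by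
    rw [Fin.sum_univ_eq_sum_range (fun a => if a < t then S1.card else S2.card) (2 * t), two_mul,
      Finset.sum_range_add]
    have e1 : ∑ x ∈ range t, (if x < t then S1.card else S2.card) = t * S1.card := by
      rw [Finset.sum_congr rfl fun x hx => if_pos (Finset.mem_range.1 hx)]
      simp
    have e2 : ∑ x ∈ range t, (if t + x < t then S1.card else S2.card) = t * S2.card := by
      rw [Finset.sum_congr rfl fun x hx => if_neg (by omega)]
      simp
    rw [e1, e2, ← mul_add, hbal]
  rw [h2]
  ring

end E4
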